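import Mathlib

/-!
The d-reflection functor preserves arbitrary products of T0 spaces.
-/

namespace Pool.Agent.Results.MP_c8df5e_gt.DReflectionProducts

open Topology Set

universe u v

/-- The specialization order: `x ≤ y` iff `x` lies in the closure of `{y}`. -/
def SLe {X : Type u} [TopologicalSpace X] (x y : X) : Prop := x ∈ closure ({y} : Set X)

/-- Directed subsets for the specialization order (nonempty by convention). -/
def Directed {X : Type u} [TopologicalSpace X] (D : Set X) : Prop :=
  D.Nonempty ∧ ∀ a ∈ D, ∀ b ∈ D, ∃ c ∈ D, SLe a c ∧ SLe b c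

/-- `s` is the supremum of `D` for the specialization order. -/
def IsSup {X : Type u} [TopologicalSpace X] (D : Set X) (s : X) : Prop :=
  (∀ a ∈ D, SLe a s) ∧ ∀ t, (∀ a ∈ D, SLe a t) → SLe s t

/-- A d-space (monotone convergence space): a T0 space in which every directed subset has a
supremum, and every open set containing the supremum meets the directed set. -/
def IsDSpace (X : Type u) [TopologicalSpace X] : Prop :=
  T0Space X ∧ ∀ D : Set X, Directed D →
    ∃ s, IsSup D s ∧ ∀ U : Set X, IsOpen U → s ∈ U → (D ∩ U).Nonempty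

/-- `(Z, μ)` is a d-reflection of `X`. -/
def IsDReflection {X Z : Type u} [TopologicalSpace X] [TopologicalSpace Z] (μ : X → Z) : Prop :=
  IsDSpace Z ∧ Continuous μ ∧
    ∀ (Y : Type u) [TopologicalSpace Y], IsDSpace Y → ∀ f : X → Y, Continuous f →
      ∃! g : Z → Y, Continuous g ∧ g ∘ μ = f

section Basic

variable {X : Type u} {Y : Type v} [TopologicalSpace X] [TopologicalSpace Y]

lemma sle_iff {X : Type u} [TopologicalSpace X] {x y : X} :
    SLe x y ↔ ∀ U : Set X, IsOpen U → x ∈ U → y ∈ U := by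
  unfold SLe
  rw [mem_closure_iff]
  constructor
  · intro h U hU hx
    obtain ⟨z, hz, hz'⟩ := h U hU hx
    rw [mem_singleton_iff] at hz'
    exact hz' ▸ hz
  · intro h U hU hx
    exact ⟨y, h U hU hx, rfl⟩

lemma sle_refl {X : Type u} [TopologicalSpace X] (x : X) : SLe x x := sle_iff.2 fun _ _ h => h

lemma sle_trans {X : Type u} [TopologicalSpace X] {x y z : X} (h : SLe x y) (h' : SLe y z) :
    SLe x z := sle_iff.2 fun U hU hx => sle_iff.1 h' U hU (sle_iff.1 h U hU hx)

lemma sle_map {X : Type u} {Y : Type v} [TopologicalSpace X] [TopologicalSpace Y]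
    {f : X → Y} (hf : Continuous f) {x y : X} (h : SLe x y) : SLe (f x) (f y) :=
  sle_iff.2 fun U hU hx => sle_iff.1 h _ (hU.preimage hf) hx

/-- `s` is the directed limit of `D`: an open set contains `s` iff it meets `D`. -/
def Lim {X : Type u} [TopologicalSpace X] (D : Set X) (s : X) : Prop :=
  ∀ U : Set X, IsOpen U → (s ∈ U ↔ (D ∩ U).Nonempty)

lemma Lim.isSup {X : Type u} [TopologicalSpace X] {D : Set X} {s : X} (h : Lim D s) :
    IsSup D s := by
  constructor
  · intro a ha
    exact sle_iff.2 fun _ hU hx => (h _ hU).2 ⟨a, ha, hx⟩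
  · intro t ht
    refine sle_iff.2 fun U hU hx => ?_
    obtain ⟨d, hd, hd'⟩ := (h U hU).1 hx
    exact sle_iff.1 (ht d hd) U hU hd'

lemma lim_of_isSup {X : Type u} [TopologicalSpace X] {D : Set X} {s : X} (h : IsSup D s)
    (h' : ∀ U : Set X, IsOpen U → s ∈ U → (D ∩ U).Nonempty) : Lim D s := by
  intro U hU
  refine ⟨h' U hU, ?_⟩
  rintro ⟨d, hd, hd'⟩
  exact sle_iff.1 (h.1 d hd) U hU hd'

lemma isDSpace_iff {X : Type u} [TopologicalSpace X] :
    IsDSpace X ↔ T0Space X ∧ ∀ D : Set X, Directed D → ∃ s, Lim D s := by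
  unfold IsDSpace
  refine and_congr_right fun _ => forall_congr' fun D => forall_congr' fun _ => ?_
  constructor
  · rintro ⟨s, h, h'⟩
    exact ⟨s, lim_of_isSup h h'⟩
  · rintro ⟨s, h⟩
    exact ⟨s, h.isSup, fun U hU hs => (h U hU).1 hs⟩

lemma Directed.image {X : Type u} {Y : Type v} [TopologicalSpace X] [TopologicalSpace Y]
    {f : X → Y} (hf : Continuous f) {D : Set X} (hD : Directed D) : Directed (f '' D) := by
  refine ⟨hD.1.image f, ?_⟩
  rintro _ ⟨a, ha, rfl⟩ _ ⟨b, hb, rfl⟩
  obtain ⟨c, hc, h1, h2⟩ := hD.2 a ha b hb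
  exact ⟨f c, ⟨c, hc, rfl⟩, sle_map hf h1, sle_map hf h2⟩

lemma Lim.image {X : Type u} {Y : Type v} [TopologicalSpace X] [TopologicalSpace Y]
    {f : X → Y} (hf : Continuous f) {D : Set X} {s : X} (h : Lim D s) : Lim (f '' D) (f s) := by
  intro U hU
  have := h _ (hU.preimage hf)
  constructor
  · intro hs
    obtain ⟨d, hd, hd'⟩ := this.1 hs
    exact ⟨f d, ⟨d, hd, rfl⟩, hd'⟩
  · rintro ⟨_, ⟨d, hd, rfl⟩, hd'⟩
    exact this.2 ⟨d, hd, hd'⟩

lemma Lim.eq {X : Type u} [TopologicalSpace X] [T0Space X] {D : Set X} {s t : X}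
    (h : Lim D s) (h' : Lim D t) : s = t := by
  apply Inseparable.eq
  rw [inseparable_iff_forall_isOpen]
  intro U hU
  rw [h U hU, h' U hU]

/-- subsets closed under directed limits -/
def DClosed {X : Type u} [TopologicalSpace X] (C : Set X) : Prop :=
  ∀ D : Set X, D ⊆ C → Directed D → ∀ s, Lim D s → s ∈ C

lemma DClosed.preimage {X : Type u} {Y : Type v} [TopologicalSpace X] [TopologicalSpace Y]
    {f : X → Y} (hf : Continuous f) {C : Set Y} (hC : DClosed C) : DClosed (f ⁻¹' C) := by
  intro D hD hd s hs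
  exact hC (f '' D) (image_subset_iff.2 hD) (hd.image hf) (f s) (hs.image hf)

/-- the range of `μ` is dense for the d-topology -/
def DDense {X : Type u} {Z : Type v} [TopologicalSpace Z] (μ : X → Z) : Prop :=
  ∀ C : Set Z, DClosed C → range μ ⊆ C → C = univ

end Basic

/-- Inducing, d-dense maps into d-spaces are d-reflections. -/
lemma isDReflection_of_good {X Z : Type u} [TopologicalSpace X] [TopologicalSpace Z] {μ : X → Z}
    (hZ : IsDSpace Z) (hi : IsInducing μ) (hd : DDense μ) : IsDReflection μ := by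
  refine ⟨hZ, hi.continuous, ?_⟩
  intro Y _ hY f hf
  have hZ' := isDSpace_iff.1 hZ
  have hY' := isDSpace_iff.1 hY
  have := hY'.1
  -- the unique open set of `Z` with prescribed preimage
  have hex : ∀ V : Set Y, IsOpen V → ∃ W : Set Z, IsOpen W ∧ μ ⁻¹' W = f ⁻¹' V := by
    intro V hV
    obtain ⟨W, hW, h⟩ := hi.isOpen_iff.1 (hV.preimage hf)
    exact ⟨W, hW, h⟩
  choose! E hEo hE using hex
  -- open sets of `Z` with the same preimage agree
  have huniq : ∀ W W' : Set Z, IsOpen W → IsOpen W' → μ ⁻¹' W = μ ⁻¹' W' → W = W' := by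
    intro W W' hW hW' h
    have : {z | z ∈ W ↔ z ∈ W'} = univ := by
      apply hd
      · intro D hD _ s hs
        show s ∈ W ↔ s ∈ W'
        rw [hs W hW, hs W' hW']
        constructor
        · rintro ⟨d, h1, h2⟩
          exact ⟨d, h1, (hD h1).1 h2⟩
        · rintro ⟨d, h1, h2⟩
          exact ⟨d, h1, (hD h1).2 h2⟩
      · rintro _ ⟨x, rfl⟩
        have := congrArg (x ∈ ·) h
        simpa using this
    ext z
    have hz : z ∈ {z | z ∈ W ↔ z ∈ W'} := by rw [this]; trivial
    exact hz
  have hmono : ∀ V V' : Set Y, IsOpen V → IsOpen V' → E V ∩ E V' = E (V ∩ V') := by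
    intro V V' hV hV'
    apply huniq _ _ ((hEo V hV).inter (hEo V' hV')) (hEo _ (hV.inter hV'))
    rw [preimage_inter, hE V hV, hE V' hV', hE _ (hV.inter hV'), preimage_inter]
  -- the points of `Z` which have an image
  have hS : {z : Z | ∃ y : Y, ∀ V : Set Y, IsOpen V → (y ∈ V ↔ z ∈ E V)} = univ := by
    apply hd
    · intro D hD hdir s hs
      have hD' : ∀ d ∈ D, ∃ y : Y, ∀ V : Set Y, IsOpen V → (y ∈ V ↔ d ∈ E V) := fun d hd => hD hd
      have : Nonempty Y := ⟨(hD' _ hdir.1.some_mem).choose⟩
      choose! y hy using hD'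
      have hdy : Directed (y '' D) := by
        refine ⟨hdir.1.image y, ?_⟩
        rintro _ ⟨a, ha, rfl⟩ _ ⟨b, hb, rfl⟩
        obtain ⟨c, hc, h1, h2⟩ := hdir.2 a ha b hb
        refine ⟨y c, ⟨c, hc, rfl⟩, sle_iff.2 ?_, sle_iff.2 ?_⟩
        · intro U hU hx
          rw [hy c hc U hU]
          exact sle_iff.1 h1 _ (hEo U hU) ((hy a ha U hU).1 hx)
        · intro U hU hx
          rw [hy c hc U hU]
          exact sle_iff.1 h2 _ (hEo U hU) ((hy b hb U hU).1 hx)
      obtain ⟨t, ht⟩ := hY'.2 _ hdy
      refine ⟨t, fun V hV => ?_⟩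
      rw [ht V hV, hs (E V) (hEo V hV)]
      constructor
      · rintro ⟨_, ⟨d, hd, rfl⟩, h⟩
        exact ⟨d, hd, (hy d hd V hV).1 h⟩
      · rintro ⟨d, hd, h⟩
        exact ⟨y d, ⟨d, hd, rfl⟩, (hy d hd V hV).2 h⟩
    · rintro _ ⟨x, rfl⟩
      refine ⟨f x, fun V hV => ?_⟩
      have := congrArg (x ∈ ·) (hE V hV)
      simp only [mem_preimage, eq_iff_iff] at this
      exact this.symm
  have hS' : ∀ z : Z, ∃ y : Y, ∀ V : Set Y, IsOpen V → (y ∈ V ↔ z ∈ E V) := by
    intro z
    have : z ∈ {z : Z | ∃ y : Y, ∀ V : Set Y, IsOpen V → (y ∈ V ↔ z ∈ E V)} := by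
      rw [hS]; trivial
    exact this
  choose g hg using hS'
  have hgc : Continuous g := by
    refine ⟨fun V hV => ?_⟩
    have : g ⁻¹' V = E V := by
      ext z
      exact hg z V hV
    rw [this]
    exact hEo V hV
  have hgf : g ∘ μ = f := by
    funext x
    apply Inseparable.eq
    rw [inseparable_iff_forall_isOpen]
    intro V hV
    rw [Function.comp_apply, hg (μ x) V hV]
    have := congrArg (x ∈ ·) (hE V hV)
    simp only [mem_preimage, eq_iff_iff] at this
    exact this
  refine ⟨g, ⟨hgc, hgf⟩, ?_⟩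
  rintro g' ⟨hg'c, hg'f⟩
  funext z
  have : {z | g' z = g z} = univ := by
    apply hd
    · intro D hD hdir s hs
      have h1 := hs.image hg'c
      have h2 := hs.image hgc
      have h3 : g' '' D = g '' D := image_congr fun d hd => hD hd
      rw [h3] at h1
      exact h1.eq h2
    · rintro _ ⟨x, rfl⟩
      have h1 := congrFun hg'f x
      have h2 := congrFun hgf x
      simp only [Function.comp_apply] at h1 h2
      show g' (μ x) = g (μ x)
      rw [h1, h2]
  have hz : z ∈ {z | g' z = g z} := by rw [this]; trivial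
  exact hz

lemma Directed.exists_finset {X : Type u} [TopologicalSpace X] {D : Set X} (hD : Directed D)
    {ι : Type v} (F : Finset ι) (a : ι → X) (ha : ∀ i ∈ F, a i ∈ D) :
    ∃ c ∈ D, ∀ i ∈ F, SLe (a i) c := by
  classical
  induction F using Finset.induction_on with
  | empty =>
    obtain ⟨d, hd⟩ := hD.1
    exact ⟨d, hd, by simp⟩
  | insert j F hj ih =>
    obtain ⟨c, hc, h⟩ := ih fun i hi => ha i (Finset.mem_insert_of_mem hi)
    obtain ⟨e, he, h1, h2⟩ := hD.2 c hc (a j) (ha j (Finset.mem_insert_self _ _))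
    refine ⟨e, he, fun i hi => ?_⟩
    rcases Finset.mem_insert.1 hi with rfl | hi
    · exact h2
    · exact sle_trans (h i hi) h1

/-- Products of d-spaces are d-spaces. -/
lemma isDSpace_pi {ι : Type u} {X : ι → Type v} [∀ i, TopologicalSpace (X i)]
    (h : ∀ i, IsDSpace (X i)) : IsDSpace (∀ i, X i) := by
  have h' := fun i => isDSpace_iff.1 (h i)
  rw [isDSpace_iff]
  have h0 := fun i => (h' i).1
  refine ⟨inferInstance, fun D hD => ?_⟩
  have hs : ∀ i, ∃ s, Lim ((fun x : ∀ i, X i => x i) '' D) s :=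
    fun i => (h' i).2 _ (hD.image (continuous_apply i))
  choose s hs using hs
  refine ⟨s, fun U hU => ⟨fun hsU => ?_, ?_⟩⟩
  · obtain ⟨F, V, hV, hsub⟩ := isOpen_pi_iff.1 hU s hsU
    have hd : ∀ i ∈ F, ∃ d ∈ D, d i ∈ V i := by
      intro i hi
      obtain ⟨_, ⟨d, hd, rfl⟩, h2⟩ := (hs i (V i) (hV i hi).1).1 (hV i hi).2
      exact ⟨d, hd, h2⟩
    have : Nonempty (∀ i, X i) := ⟨hD.1.some⟩
    choose! d hd hdV using hd
    obtain ⟨c, hc, hcd⟩ := hD.exists_finset F d hd
    refine ⟨c, hc, hsub ?_⟩
    intro i hi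
    exact sle_iff.1 (sle_map (continuous_apply i) (hcd i hi)) _ (hV i hi).1 (hdV i hi)
  · rintro ⟨d, hd, hdU⟩
    have : SLe d s := by
      refine sle_iff.2 fun W hW hdW => ?_
      obtain ⟨F, V, hV, hsub⟩ := isOpen_pi_iff.1 hW d hdW
      apply hsub
      intro i hi
      exact ((hs i (V i) (hV i hi).1).2 ⟨d i, ⟨d, hd, rfl⟩, (hV i hi).2⟩)
    exact sle_iff.1 this U hU hdU

lemma isDSpace_prop : IsDSpace Prop := by
  rw [isDSpace_iff]
  refine ⟨inferInstance, fun D hD => ?_⟩
  refine ⟨True ∈ D, fun U hU => ?_⟩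
  have hU' : ∀ p ∈ U, True ∈ U := by
    intro p hp
    by_cases h : p
    · rwa [eq_true h] at hp
    · rw [eq_false h] at hp
      -- `False ∈ U` open forces `U = univ`
      have h1 : False ∈ closure ({True} : Set Prop) := by
        by_contra hc
        have h2 : IsOpen ((closure ({True} : Set Prop))ᶜ) := isClosed_closure.isOpen_compl
        have h3 := isOpen_iff_continuous_mem.1 h2
        have h4 : ((closure ({True} : Set Prop))ᶜ) = ({False} : Set Prop) := by
          ext q
          by_cases hq : q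
          · rw [eq_true hq]
            simp only [mem_compl_iff, mem_singleton_iff]
            constructor
            · intro h5
              exact absurd (subset_closure (mem_singleton True)) h5
            · intro h5
              exact absurd h5 (by simp)
          · rw [eq_false hq]
            simp only [mem_compl_iff, mem_singleton_iff]
            exact ⟨fun _ => trivial, fun _ => hc⟩
        rw [h4] at h2
        have h5 : IsOpen ({False} : Set Prop) := h2
        have h6 : Continuous (fun p : Prop => p ∈ ({False} : Set Prop)) :=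
          isOpen_iff_continuous_mem.1 h5
        have h7 := h6.isOpen_preimage _ isOpen_singleton_true
        have h8 : (TopologicalSpace.generateFrom {{True}}).IsOpen ({False} : Set Prop) := h5
        have h9 : ∀ W : Set Prop, (TopologicalSpace.GenerateOpen {{True}} W) →
            False ∈ W → True ∈ W := by
          intro W hW
          induction hW with
          | basic s hs =>
            intro h10
            rw [mem_singleton_iff] at hs
            rw [hs] at h10
            simp at h10
          | univ => intro _; trivial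
          | inter s t _ _ ih1 ih2 => exact fun h10 => ⟨ih1 h10.1, ih2 h10.2⟩
          | sUnion S _ ih =>
            rintro ⟨s, hs, h10⟩
            exact ⟨s, hs, ih s hs h10⟩
        have h11 := h9 _ h8 rfl
        simp at h11
      obtain ⟨q, h2, h3⟩ := mem_closure_iff.1 h1 U hU hp
      rw [mem_singleton_iff] at h3
      exact h3 ▸ h2
  by_cases hT : True ∈ D
  · rw [eq_true hT]
    constructor
    · intro h
      exact ⟨True, hT, h⟩
    · rintro ⟨p, _, hp⟩
      exact hU' p hp
  · have hD' : D = {False} := by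
      obtain ⟨d, hd⟩ := hD.1
      ext q
      by_cases hq : q
      · rw [eq_true hq]
        simp [hT]
      · rw [eq_false hq]
        simp only [mem_singleton_iff, iff_true]
        by_cases hd' : d
        · rw [eq_true hd'] at hd
          exact absurd hd hT
        · rwa [eq_false hd'] at hd
    rw [eq_false hT, hD']
    simp

/-- The map of `X` to the power of the Sierpinski space indexed by its open sets. -/
def sier (X : Type u) [TopologicalSpace X] (x : X) (U : TopologicalSpace.Opens X) : Prop := x ∈ U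

lemma sier_inducing (X : Type u) [TopologicalSpace X] : IsInducing (sier X) := by
  have h := TopologicalSpace.productOfMemOpens_isInducing X
  exact h

/-- Every T0 space has an inducing, d-dense map into a d-space. -/
lemma exists_good (X : Type u) [TopologicalSpace X] :
    ∃ (Z : Type u) (_ : TopologicalSpace Z) (μ : X → Z),
      IsDSpace Z ∧ IsInducing μ ∧ DDense μ := by
  have hP : IsDSpace (TopologicalSpace.Opens X → Prop) := isDSpace_pi fun _ => isDSpace_prop
  have hP' := isDSpace_iff.1 hP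
  set e := sier X with he
  let C0 : Set (TopologicalSpace.Opens X → Prop) :=
    {z | ∀ C : Set (TopologicalSpace.Opens X → Prop), DClosed C → range e ⊆ C → z ∈ C}
  have hC0 : DClosed C0 := by
    intro D hD hdir s hs C hC hr
    exact hC D (fun d hd => hD hd C hC hr) hdir s hs
  have hr0 : ∀ x, e x ∈ C0 := fun x C _ hr => hr ⟨x, rfl⟩
  have hT := hP'.1
  -- comparison of limits in the subspace and in the ambient space
  have hlim : ∀ (D : Set C0) (s : C0), Lim (Subtype.val '' D) (s : _) ↔ Lim D s := by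
    intro D s
    constructor
    · intro h U hU
      obtain ⟨V, hV, rfl⟩ := isOpen_induced_iff.1 hU
      constructor
      · intro hs
        obtain ⟨_, ⟨d, hd, rfl⟩, h2⟩ := (h V hV).1 hs
        exact ⟨d, hd, h2⟩
      · rintro ⟨d, hd, h2⟩
        exact (h V hV).2 ⟨d, ⟨d, hd, rfl⟩, h2⟩
    · intro h
      exact h.image continuous_subtype_val
  have hdir : ∀ D : Set C0, Directed D → Directed (Subtype.val '' D) := fun D hD =>
    hD.image continuous_subtype_val
  have hdir' : ∀ D : Set C0, Directed (Subtype.val '' D) → Directed D := by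
    intro D hD
    refine ⟨by simpa using hD.1, fun a ha b hb => ?_⟩
    obtain ⟨_, ⟨c, hc, rfl⟩, h1, h2⟩ := hD.2 a ⟨a, ha, rfl⟩ b ⟨b, hb, rfl⟩
    refine ⟨c, hc, sle_iff.2 ?_, sle_iff.2 ?_⟩
    · intro U hU hx
      obtain ⟨V, hV, rfl⟩ := isOpen_induced_iff.1 hU
      exact sle_iff.1 h1 V hV hx
    · intro U hU hx
      obtain ⟨V, hV, rfl⟩ := isOpen_induced_iff.1 hU
      exact sle_iff.1 h2 V hV hx
  refine ⟨C0, inferInstance, fun x => ⟨e x, hr0 x⟩, ?_, ?_, ?_⟩
  · rw [isDSpace_iff]
    refine ⟨inferInstance, fun D hD => ?_⟩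
    obtain ⟨s, hs⟩ := hP'.2 _ (hdir D hD)
    have hsC : s ∈ C0 := hC0 _ (by rintro _ ⟨d, _, rfl⟩; exact d.2) (hdir D hD) s hs
    exact ⟨⟨s, hsC⟩, (hlim D ⟨s, hsC⟩).1 hs⟩
  · have h := sier_inducing X
    exact IsInducing.of_comp (h.continuous.subtype_mk hr0) continuous_subtype_val h
  · intro C hC hr
    ext z
    simp only [mem_univ, iff_true]
    have hC' : DClosed (Subtype.val '' C : Set (TopologicalSpace.Opens X → Prop)) := by
      intro D hD hd s hs
      have hsC : s ∈ C0 := hC0 D (fun d hd => by obtain ⟨c, _, rfl⟩ := hD hd; exact c.2) hd s hs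
      have hDe : Subtype.val '' (Subtype.val ⁻¹' D : Set C0) = D := by
        rw [Subtype.image_preimage_coe]
        apply inter_eq_self_of_subset_right
        intro d hd
        obtain ⟨c, _, rfl⟩ := hD hd
        exact c.2
      refine ⟨⟨s, hsC⟩, hC (Subtype.val ⁻¹' D) ?_ (hdir' _ (by rwa [hDe])) _ ?_, rfl⟩
      · intro d hd
        obtain ⟨c, hc, h⟩ := hD hd
        have : c = d := Subtype.ext h
        rwa [← this]
      · rw [← hlim, hDe]
        exact hs
    have hr' : range e ⊆ (Subtype.val '' C : Set (TopologicalSpace.Opens X → Prop)) := by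
      rintro _ ⟨x, rfl⟩
      exact ⟨⟨e x, hr0 x⟩, hr ⟨x, rfl⟩, rfl⟩
    obtain ⟨c, hc, h⟩ := z.2 _ hC' hr'
    have : c = z := Subtype.ext h
    rwa [← this]

/-- Uniqueness of reflections. -/
lemma exists_homeo {X Z W : Type u} [TopologicalSpace X] [TopologicalSpace Z] [TopologicalSpace W]
    {μ : X → Z} {ν : X → W} (hμ : IsDReflection μ) (hν : IsDReflection ν) :
    ∃ h : Z ≃ₜ W, h ∘ μ = ν := by
  obtain ⟨f, ⟨hf, hfμ⟩, -⟩ := hμ.2.2 W hν.1 ν hν.2.1
  obtain ⟨g, ⟨hg, hgν⟩, -⟩ := hν.2.2 Z hμ.1 μ hμ.2.1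
  obtain ⟨a, -, ha⟩ := hμ.2.2 Z hμ.1 μ hμ.2.1
  obtain ⟨b, -, hb⟩ := hν.2.2 W hν.1 ν hν.2.1
  have h1 : g ∘ f = id := by
    rw [ha id ⟨continuous_id, rfl⟩]
    exact ha _ ⟨hg.comp hf, by rw [Function.comp_assoc, hfμ, hgν]⟩
  have h2 : f ∘ g = id := by
    rw [hb id ⟨continuous_id, rfl⟩]
    exact hb _ ⟨hf.comp hg, by rw [Function.comp_assoc, hgν, hfμ]⟩
  exact ⟨⟨⟨f, g, congrFun h1, congrFun h2⟩, hf, hg⟩, hfμ⟩

/-- d-reflections are inducing and d-dense. -/
lemma IsDReflection.good {X Z : Type u} [TopologicalSpace X] [TopologicalSpace Z] {μ : X → Z}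
    (hμ : IsDReflection μ) : IsInducing μ ∧ DDense μ := by
  obtain ⟨W, _, ν, hW, hi, hd⟩ := exists_good X
  obtain ⟨h, rfl⟩ := exists_homeo (isDReflection_of_good hW hi hd) hμ
  refine ⟨h.isInducing.comp hi, ?_⟩
  intro C hC hr
  have h1 := hd (h ⁻¹' C) (hC.preimage h.continuous) (by
    rintro _ ⟨x, rfl⟩
    exact hr ⟨x, rfl⟩)
  ext z
  simp only [mem_univ, iff_true]
  have h2 : h.symm z ∈ h ⁻¹' C := by rw [h1]; trivial
  simpa using h2

/-- d-density of a product map. -/
lemma ddense_pi {ι : Type u} {X Z : ι → Type u} [∀ i, TopologicalSpace (Z i)]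
    {μ : ∀ i, X i → Z i} (h : ∀ i, DDense (μ i)) :
    DDense (fun (x : ∀ i, X i) i => μ i (x i)) := by
  classical
  intro C hC hr
  -- finitely many coordinates
  have hA : ∀ (F : Finset ι) (x : ∀ i, X i) (z : ∀ i, Z i),
      (fun i => if i ∈ F then z i else μ i (x i)) ∈ C := by
    intro F
    induction F using Finset.induction_on with
    | empty =>
      intro x z
      exact hr ⟨x, by simp⟩
    | insert j F hj ih =>
      intro x z
      let p : Z j → ∀ i, Z i := fun t =>
        Function.update (fun i => if i ∈ F then z i else μ i (x i)) j t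
      have hp : Continuous p := continuous_const.update j continuous_id
      have h1 := h j (p ⁻¹' C) (hC.preimage hp) (by
        rintro _ ⟨y, rfl⟩
        have h2 := ih (Function.update x j y) z
        have h3 : p (μ j y) = fun i => if i ∈ F then z i else μ i (Function.update x j y i) := by
          funext i
          by_cases hi : i = j
          · subst hi
            simp [p, hj]
          · simp [p, Function.update_of_ne hi]
        show p (μ j y) ∈ C
        rw [h3]
        exact h2)
      have h2 : z j ∈ p ⁻¹' C := by rw [h1]; trivial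
      have h3 : p (z j) = fun i => if i ∈ insert j F then z i else μ i (x i) := by
        funext i
        by_cases hi : i = j
        · subst hi
          simp [p]
        · simp [p, hi]
      rw [← h3]
      exact h2
  ext z
  simp only [mem_univ, iff_true]
  -- every coordinate is above a point of the image
  have hB : ∀ i, ∃ x : X i, SLe (μ i x) (z i) := by
    intro i
    have h1 := h i {t | ∃ x : X i, SLe (μ i x) t} (by
      intro D hD hdir s hs
      obtain ⟨d, hd⟩ := hdir.1
      obtain ⟨x, hx⟩ := hD hd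
      exact ⟨x, sle_trans hx (hs.isSup.1 d hd)⟩) (by
      rintro _ ⟨x, rfl⟩
      exact ⟨x, sle_refl _⟩)
    have h2 : z i ∈ {t | ∃ x : X i, SLe (μ i x) t} := by rw [h1]; trivial
    exact h2
  choose x hx using hB
  have hle : ∀ (a b : ∀ i, Z i), (∀ i, SLe (a i) (b i)) → SLe a b := by
    intro a b hab
    refine sle_iff.2 fun W hW haW => ?_
    obtain ⟨G, V, hV, hsub⟩ := isOpen_pi_iff.1 hW a haW
    apply hsub
    intro i hi
    exact sle_iff.1 (hab i) _ (hV i hi).1 (hV i hi).2
  refine hC (range fun F : Finset ι => fun i => if i ∈ F then z i else μ i (x i)) ?_ ?_ z ?_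
  · rintro _ ⟨F, rfl⟩
    exact hA F x z
  · refine ⟨⟨_, ∅, rfl⟩, ?_⟩
    rintro _ ⟨F, rfl⟩ _ ⟨G, rfl⟩
    refine ⟨_, ⟨F ∪ G, rfl⟩, hle _ _ fun i => ?_, hle _ _ fun i => ?_⟩
    · by_cases hi : i ∈ F
      · simp [hi, sle_refl]
      · by_cases hi' : i ∈ G
        · simp [hi, hi', hx]
        · simp [hi, hi', sle_refl]
    · by_cases hi : i ∈ G
      · simp [hi, sle_refl]
      · by_cases hi' : i ∈ F
        · simp [hi, hi', hx]
        · simp [hi, hi', sle_refl]
  · intro U hU
    constructor
    · intro hzU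
      obtain ⟨G, V, hV, hsub⟩ := isOpen_pi_iff.1 hU z hzU
      refine ⟨_, ⟨G, rfl⟩, hsub ?_⟩
      intro i hi
      have hi' : i ∈ G := hi
      simp only [hi', if_true]
      exact (hV i hi).2
    · rintro ⟨_, ⟨F, rfl⟩, hU'⟩
      refine sle_iff.1 (hle _ z fun i => ?_) U hU hU'
      by_cases hi : i ∈ F
      · simp [hi, sle_refl]
      · simp [hi, hx]

/-- **The d-reflection functor preserves arbitrary products.**  If `μ i : X i → Z i` is a
d-reflection for every `i` in an arbitrary index set, then the product map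
`∏ X i → ∏ Z i` is a d-reflection; hence any d-reflection `W` of `∏ X i` is homeomorphic to
`∏ Z i`, by a homeomorphism compatible with the reflection maps. -/
theorem result {ι : Type u} (X Z : ι → Type u) [∀ i, TopologicalSpace (X i)]
    [∀ i, T0Space (X i)] [∀ i, TopologicalSpace (Z i)] (μ : ∀ i, X i → Z i)
    (hμ : ∀ i, IsDReflection (μ i)) :
    IsDReflection (fun (x : ∀ i, X i) i => μ i (x i)) ∧
      ∀ (W : Type u) [TopologicalSpace W] (ν : (∀ i, X i) → W), IsDReflection ν →
        ∃ h : W ≃ₜ (∀ i, Z i), h ∘ ν = fun (x : ∀ i, X i) i => μ i (x i) := by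
  have h1 : IsDReflection (fun (x : ∀ i, X i) i => μ i (x i)) := by
    refine isDReflection_of_good (isDSpace_pi fun i => (hμ i).1) ?_ (ddense_pi fun i => (hμ i).good.2)
    exact IsInducing.piMap fun i => (hμ i).good.1
  exact ⟨h1, fun W _ ν hν => exists_homeo hν h1⟩

end Pool.Agent.Results.MP_c8df5e_gt.DReflectionProducts
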